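import Pool.Agent.H86.XP.Cor
import Pool.Agent.H86.XP.Fwp

set_option autoImplicit false

/-!
# Refutations of random 3-CNFs by formulas of bounded depth over parities
-/

namespace Pool.Agent.Results.MP_576eff_lc.BoundedDepthOverParities

open Finset Classical Pool.Agent.H3.Frg Pool.Agent.H3.Frg2 Pool.Agent.H3.Frg4 Pool.Agent.H55.QT Pool.H6.LD
  Pool.H86.XP

/-- For `Δ ≥ 6` there are `T1` and a function `T` such that with probability tending to 1 a random 3-CNF with `n`
variables and `Δ n` clauses is unsatisfiable and has for all `k` the following properties. (1) Every refutation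
(`DerX`: not necessarily tree-like; sound schemes with at most `k` symbols, modus ponens, resolution on parities) by
formulas over parities of any sets of variables, with alternation depth at most `k` and length at most `k n`, has at
least `2 ^ (n / T k)` lines. (2) The same is true for lines with at most `n / T k` different pieces (maximal
subformulas of alternation depth at most `k`) of total weight at most `k n`, if the parities of more than `k`
variables of each line have at most `2 ^ (n / T1)` different sums. (3) Every refutation in resolution over parities (`DerL`: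
disjunctions of linear equations mod 2; each line is a clause, or is valid, or follows from two earlier lines), where
each line has at most `n / T1` equations with more than `k` variables, has at least `2 ^ (n / T k)` lines. The last
part: conjunctions and disjunctions of parities and of formulas of length at most `k`, of size up to `2 ^ √(k n)`, are
admitted in (2). -/
theorem result :
    (∀ Δ : ℕ, 6 ≤ Δ → ∃ T1 : ℕ, 0 < T1 ∧ ∃ T : ℕ → ℕ, (∀ k, 0 < T k) ∧ ∀ e : ℝ, 0 < e →
      ∃ n0 : ℕ, ∀ n : ℕ, n0 ≤ n →
      ((univ.filter fun φ : Fin (Δ * n) → Cl n => ¬ (¬ Sat φ ∧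
        (∀ (k : ℕ) (Sch : Set (Fm ℕ)), (∀ ψ ∈ Sch, ψ.len ≤ k ∧ ∀ x : ℕ → Bool, ψ.eval x = true) →
          ∀ (N : ℕ) (pf : Fin N → Fx n), DerX k Sch (AxX φ (k + 3) ∪ ValX n k) pf →
          (∃ i j, pf i = Fm.neg (pf j)) →
          ((∀ i, alt (pf i) true ≤ k ∧ alt (pf i) false ≤ k ∧ lx (pf i) ≤ k * n) ∨
            ∀ i, Fwx k (n / T k) (k * n) (pf i) ∧ (sums k (pf i)).card ≤ 2 ^ (n / T1)) →
          (2 : ℝ) ^ ((n : ℝ) / T k) ≤ N) ∧
        ∀ (k N : ℕ) (C : Fin N → Lc n), DerL φ C → (∃ i, ∀ x, ¬ tL (C i) x) →
          (∀ i, ((C i).filter fun p => k < p.1.card).card ≤ n / T1) →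
          (2 : ℝ) ^ ((n : ℝ) / T k) ≤ N)).card : ℝ) ≤
        e * Fintype.card (Fin (Δ * n) → Cl n)) ∧
    ∀ (k n : ℕ) (F : Fx n) (b : Bool), 1 ≤ k → (∀ p ∈ cj F b, lx p.1 ≤ k ∨ ∃ S, p.1 = Fm.var S) →
      Nat.log 2 (lx F) ^ 2 ≤ k * n → Fwx k 1 (k * n) F :=
  ⟨fun _ hΔ => lpc hΔ, fun k n F b hk hF hl => fwx_par k n hk F b hF hl⟩

end Pool.Agent.Results.MP_576eff_lc.BoundedDepthOverParities
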